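import Pool.Agent.Helper26.RP.Goals

/-!
# Packet CNT (MP_105b7b_pr)
-/

noncomputable section

namespace RP.PkCNT

open MeasureTheory

theorem nx_symm {a b c d : E} (h : NX a b c d) : NX c d a b := by
  rcases h with h | h
  · left
    rcases h with h | h | h | h
    · exact Or.inl h.symm
    · exact Or.inr (Or.inr (Or.inl h.symm))
    · exact Or.inr (Or.inl h.symm)
    · exact Or.inr (Or.inr (Or.inr h.symm))
  · right
    exact h.symm

theorem nx_swap {a b c d : E} (h : NX a b c d) : NX b a c d := by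
  rcases h with h | h
  · left
    rcases h with h | h | h | h
    · exact Or.inr (Or.inr (Or.inl h))
    · exact Or.inr (Or.inr (Or.inr h))
    · exact Or.inl h
    · exact Or.inr (Or.inl h)
  · right
    rw [segment_symm ℝ b a]
    exact h

theorem nx_self (a b : E) : NX a b a b := Or.inl (Or.inl rfl)

/-- adjacency in the polygon. -/
def Adj {m : ℕ} (σ : Equiv.Perm (Fin (m + 1))) (p q : Fin (m + 1)) : Prop :=
  ∃ i, (p = σ i ∧ q = σ (i + 1)) ∨ (p = σ (i + 1) ∧ q = σ i)

theorem adj_symm {m : ℕ} {σ : Equiv.Perm (Fin (m + 1))} {p q : Fin (m + 1)} (h : Adj σ p q) :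
    Adj σ q p := by
  obtain ⟨i, h | h⟩ := h
  · exact ⟨i, Or.inr ⟨h.2, h.1⟩⟩
  · exact ⟨i, Or.inl ⟨h.2, h.1⟩⟩

theorem adj_nx {m : ℕ} {σ : Equiv.Perm (Fin (m + 1))} {x : Fin (m + 1) → E}
    (hσ : Cl (finRotate (m + 1)) (x ∘ σ)) {p q r s : Fin (m + 1)} (h : Adj σ p q)
    (h' : Adj σ r s) : NX (x p) (x q) (x r) (x s) := by
  obtain ⟨i, hi⟩ := h
  obtain ⟨j, hj⟩ := h'
  have key := hσ.2 i j
  simp only [Function.comp, finRotate_apply] at key
  rcases hi with ⟨rfl, rfl⟩ | ⟨rfl, rfl⟩ <;> rcases hj with ⟨rfl, rfl⟩ | ⟨rfl, rfl⟩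
  · exact key
  · exact nx_symm (nx_swap (nx_symm key))
  · exact nx_swap key
  · exact nx_swap (nx_symm (nx_swap (nx_symm key)))

theorem add_two_ne {m : ℕ} (hm : 2 ≤ m) (i : Fin (m + 1)) : i + 1 + 1 ≠ i := by
  intro h
  have h2 : (1 + 1 : Fin (m + 1)) = 0 := by
    have : i + (1 + 1) = i + 0 := by rw [← add_assoc, h, add_zero]
    exact add_left_cancel this
  have h3 := congrArg Fin.val h2
  rw [Fin.val_add] at h3
  have h1 : ((1 : Fin (m + 1)) : ℕ) = 1 := by
    rw [Fin.val_one']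
    exact Nat.mod_eq_of_lt (by omega)
  rw [h1, Nat.mod_eq_of_lt (by omega)] at h3
  simp at h3

theorem add_one_ne {m : ℕ} (hm : 2 ≤ m) (i : Fin (m + 1)) : i + 1 ≠ i := by
  intro h
  have h2 : (1 : Fin (m + 1)) = 0 := by
    have : i + 1 = i + 0 := by rw [h, add_zero]
    exact add_left_cancel this
  have h3 := congrArg Fin.val h2
  have h1 : ((1 : Fin (m + 1)) : ℕ) = 1 := by
    rw [Fin.val_one']
    exact Nat.mod_eq_of_lt (by omega)
  rw [h1] at h3
  simp at h3

/-- The adjacency, `σ 0` and `σ 1` determine `σ`. -/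
theorem perm_eq {m : ℕ} (hm : 2 ≤ m) {σ τ : Equiv.Perm (Fin (m + 1))}
    (h : ∀ p q, p ≠ q → Adj σ p q → Adj τ p q) (h0 : σ 0 = τ 0) (h1 : σ 1 = τ 1) : σ = τ := by
  have key : ∀ k : ℕ, ∀ i : Fin (m + 1), i.val = k → σ i = τ i ∧ σ (i + 1) = τ (i + 1) := by
    intro k
    induction k with
    | zero =>
      intro i hi
      have : i = 0 := Fin.ext (by simpa using hi)
      subst this
      exact ⟨h0, by simpa using h1⟩
    | succ k ih =>
      intro i' hi'
      have hlt := i'.isLt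
      obtain ⟨i, hi⟩ : ∃ i : Fin (m + 1), i.val = k := ⟨⟨k, by omega⟩, rfl⟩
      obtain ⟨ih0, ih1⟩ := ih i hi
      have h1v : ((1 : Fin (m + 1)) : ℕ) = 1 := by
        rw [Fin.val_one']
        exact Nat.mod_eq_of_lt (by omega)
      have e : i' = i + 1 := by
        apply Fin.ext
        rw [Fin.val_add, h1v, hi, hi', Nat.mod_eq_of_lt (by omega)]
      rw [e]
      refine ⟨ih1, ?_⟩
      have hadj : Adj σ (σ (i + 1)) (σ (i + 1 + 1)) := ⟨i + 1, Or.inl ⟨rfl, rfl⟩⟩
      have hne : σ (i + 1) ≠ σ (i + 1 + 1) := by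
        intro hh
        exact add_one_ne hm (i + 1) (σ.injective hh).symm
      obtain ⟨j, hj | hj⟩ := h _ _ hne hadj
      · have hji : j = i + 1 := τ.injective (by rw [← hj.1, ih1])
        rw [hj.2, hji]
      · exfalso
        have hji : j = i := by
          have : j + 1 = i + 1 := τ.injective (by rw [← hj.1, ih1])
          exact add_right_cancel this
        have h5 : σ (i + 1 + 1) = σ i := by rw [hj.2, hji, ih0]
        exact add_two_ne hm i (σ.injective h5)
  ext i
  rw [(key i.val i rfl).1]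

open Classical in
theorem cnt : G_CRL → G_ABS → G_CNT := by
  intro hCRL hABS
  obtain ⟨C, hC0, hA⟩ := hABS
  refine ⟨Real.exp (C + 2), Real.one_le_exp (by linarith), ?_⟩
  intro n x hn hGP hinj
  obtain ⟨m, rfl⟩ : ∃ m, n = m + 1 := ⟨n - 1, by omega⟩
  have hm : 2 ≤ m := by omega
  set F0 : Finset (Fin (m + 1) × Fin (m + 1)) :=
    Finset.univ.filter fun e => (x e.1).1 < (x e.2).1 with hF0
  set cr : Fin (m + 1) × Fin (m + 1) → Fin (m + 1) × Fin (m + 1) → Prop :=
    fun e f => ¬ NX (x e.1) (x e.2) (x f.1) (x f.2) with hcr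
  have hmain := hA (m + 1) (Fin (m + 1) × Fin (m + 1)) F0 cr (by omega)
    (fun e f h h' => h (nx_symm h')) (fun e h => h (nx_self _ _))
    (by
      intro F hF hc
      refine (hCRL (m + 1) x hGP hinj F (fun e he => (Finset.mem_filter.1 (hF he)).2) hc).trans
        (le_of_eq ?_)
      apply congrArg
      apply congrArg
      ext z
      simp only [Finset.mem_filter, hcr])
  set S := F0.powerset.filter fun G => ∀ e ∈ G, ∀ f ∈ G, ¬ cr e f with hS
  set P := Finset.univ.filter fun σ : Equiv.Perm (Fin (m + 1)) =>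
    Cl (finRotate (m + 1)) (x ∘ σ) with hP
  let code : Equiv.Perm (Fin (m + 1)) →
      Finset (Fin (m + 1) × Fin (m + 1)) × Fin (m + 1) × Fin (m + 1) :=
    fun σ => (F0.filter fun e => Adj σ e.1 e.2, σ 0, σ 1)
  have hcard : P.card ≤ (S ×ˢ ((Finset.univ : Finset (Fin (m + 1))) ×ˢ
      (Finset.univ : Finset (Fin (m + 1))))).card := by
    refine Finset.card_le_card_of_injOn code ?_ ?_
    · intro σ hσ
      have hσ' : Cl (finRotate (m + 1)) (x ∘ σ) := (Finset.mem_filter.1 hσ).2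
      simp only [Finset.coe_product, Set.mem_prod, Finset.mem_coe, Finset.mem_univ, and_true, code]
      rw [hS, Finset.mem_filter, Finset.mem_powerset]
      refine ⟨Finset.filter_subset _ _, ?_⟩
      intro e he f hf h
      exact h (adj_nx hσ' (Finset.mem_filter.1 he).2 (Finset.mem_filter.1 hf).2)
    · intro σ hσ τ hτ heq
      simp only [code, Prod.mk.injEq] at heq
      obtain ⟨hG, h0, h1⟩ := heq
      refine perm_eq hm ?_ h0 h1
      intro p q hpq hadj
      have hx : (x p).1 ≠ (x q).1 := fun hh => hpq (hinj hh)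
      rcases lt_or_gt_of_ne hx with hlt | hlt
      · have hmem : (p, q) ∈ F0.filter fun e => Adj σ e.1 e.2 := by
          rw [Finset.mem_filter, hF0, Finset.mem_filter]
          exact ⟨⟨Finset.mem_univ _, hlt⟩, hadj⟩
        rw [hG, Finset.mem_filter] at hmem
        exact hmem.2
      · have hmem : (q, p) ∈ F0.filter fun e => Adj σ e.1 e.2 := by
          rw [Finset.mem_filter, hF0, Finset.mem_filter]
          exact ⟨⟨Finset.mem_univ _, hlt⟩, adj_symm hadj⟩
        rw [hG, Finset.mem_filter] at hmem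
        exact adj_symm hmem.2
  have hcard2 : (P.card : ℝ) ≤ (S.card : ℝ) * ((m + 1 : ℕ) : ℝ) * ((m + 1 : ℕ) : ℝ) := by
    have h1 : (P.card : ℝ) ≤ (((S ×ˢ ((Finset.univ : Finset (Fin (m + 1))) ×ˢ
      (Finset.univ : Finset (Fin (m + 1))))).card : ℕ) : ℝ) := by exact_mod_cast hcard
    rw [Finset.card_product, Finset.card_product, Finset.card_univ, Fintype.card_fin] at h1
    push_cast at h1 ⊢
    linarith
  have hexp : ((m + 1 : ℕ) : ℝ) ≤ Real.exp ((m + 1 : ℕ) : ℝ) := by
    have := Real.add_one_le_exp (((m + 1 : ℕ) : ℝ))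
    linarith
  have hpos : (0 : ℝ) ≤ ((m + 1 : ℕ) : ℝ) := Nat.cast_nonneg _
  have hS' : (S.card : ℝ) ≤ Real.exp (C * ((m + 1 : ℕ) : ℝ)) := by
    refine le_trans (le_of_eq ?_) hmain
    apply congrArg
    apply congrArg
    ext G
    simp only [hS, Finset.mem_filter]
  calc (P.card : ℝ) ≤ (S.card : ℝ) * ((m + 1 : ℕ) : ℝ) * ((m + 1 : ℕ) : ℝ) := hcard2
    _ ≤ Real.exp (C * ((m + 1 : ℕ) : ℝ)) * Real.exp ((m + 1 : ℕ) : ℝ) *
        Real.exp ((m + 1 : ℕ) : ℝ) := by
        gcongr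
    _ = Real.exp (C + 2) ^ (m + 1) := by
        rw [← Real.exp_add, ← Real.exp_add, ← Real.exp_nat_mul]
        congr 1
        ring

end RP.PkCNT
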